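import Pool.Agent.Lib.helper1.Km3

set_option autoImplicit false

namespace Pool.Agent.Results.MP_19659a_pr.TwoParticles

open Finset

/-- configurations of `k` particles on `n` sites -/
abbrev Conf (n k : ℕ) := ↥((univ : Finset (Fin n)).piAntidiag k)

/-- the matrix of `N_B`: column `f` is the uniform average of the configurations `g` that agree
with `f` outside `B` -/
noncomputable def N (n k : ℕ) (B : Finset (Fin n)) : Matrix (Conf n k) (Conf n k) ℝ := fun g f =>
  if ∀ j, j ∉ B → g.1 j = f.1 j then
    1 / ((univ.filter (fun u : Conf n k => ∀ j, j ∉ B → u.1 j = f.1 j)).card : ℝ) else 0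

/-- the Laplacian of the discrete KMP process -/
noncomputable def L (n k : ℕ) (w : Finset (Fin n) → ℝ) : Matrix (Conf n k) (Conf n k) ℝ :=
  ∑ B, w B • (1 - N n k B)

/-- least eigenvalue, counted with multiplicity, after one copy of `0` is removed -/
noncomputable def lamStar (n k : ℕ) (w : Finset (Fin n) → ℝ) : ℝ :=
  sInf {x | x ∈ (L n k w).charpoly.roots.erase 0}

theorem result (n : ℕ) (hn : 2 ≤ n) (w : Finset (Fin n) → ℝ) (hw : ∀ B, 0 ≤ w B) (k : ℕ)
    (hk : 2 ≤ k) : lamStar n k w = lamStar n 2 w := by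
  obtain ⟨j, rfl⟩ := Nat.exists_eq_add_of_le' hk
  exact Pool.Agent.Lib.helper1.Km.main hw ⟨0, by omega⟩ j

end Pool.Agent.Results.MP_19659a_pr.TwoParticles
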